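import Mathlib

/-!
# Von Neumann regularity up to the kernel of a representation
-/

set_option autoImplicit false
set_option linter.unusedSectionVars false

namespace Pool.Agent.U735.CV

section

variable {A : Type*} [Ring A] [Algebra ℚ A] {E : Type*} [Field E] [Algebra ℚ E]
  {B : Type*} [Ring B] [Algebra E B] [Module.Finite E B]
  (ρ : A →+* B) (τ : A →ₗ[ℚ] ℚ) (T : B →ₗ[E] E)
  (hτ : ∀ a, T (ρ a) = algebraMap ℚ E (τ a))
  (hnil : ∀ a, IsNilpotent (ρ a) → τ a = 0)
  (hnd : ∀ a, ρ a ≠ 0 → ∃ b, τ (b * a) ≠ 0)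

include hτ hnd

lemma finite_of_form (hinj : Function.Injective ρ) : Module.Finite ℚ A := by
  classical
  obtain ⟨s, hs, hspan⟩ := (Submodule.fg_span_iff_fg_span_finset_subset
    (R := E) (Set.range ρ)).1 (IsNoetherian.noetherian _)
  choose g hg using fun x : s => hs x.2
  let f : A →ₗ[ℚ] (s → ℚ) := LinearMap.pi fun x => τ ∘ₗ LinearMap.mulLeft ℚ (g x)
  have hf : Function.Injective f := by
    rw [injective_iff_map_eq_zero]
    intro a ha
    by_contra hne
    obtain ⟨b, hb⟩ := hnd a (by rwa [Ne, map_eq_zero_iff ρ hinj])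
    apply hb
    let T' : B →ₗ[E] E := T ∘ₗ LinearMap.mulRight E (ρ a)
    have h1 : ρ b ∈ Submodule.span E (Set.range ρ) := Submodule.subset_span ⟨b, rfl⟩
    rw [hspan] at h1
    have h2 : Submodule.span E (s : Set B) ≤ LinearMap.ker T' := by
      rw [Submodule.span_le]
      intro x hx
      have h3 := congrFun ha ⟨x, hx⟩
      have h4 : τ (g ⟨x, hx⟩ * a) = 0 := h3
      have h5 : ρ (g ⟨x, hx⟩) = x := hg ⟨x, hx⟩
      have h6 := hτ (g ⟨x, hx⟩ * a)
      rw [h4, map_zero, map_mul, h5] at h6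
      exact h6
    have h3 : T' (ρ b) = 0 := h2 h1
    have h4 := hτ (b * a)
    rw [map_mul] at h4
    have h5 : algebraMap ℚ E (τ (b * a)) = 0 := h4.symm.trans h3
    exact (map_eq_zero _).1 h5
  exact Module.Finite.of_injective f hf

include hnil

theorem regular_inj (hinj : Function.Injective ρ) (a : A) : ∃ b, a * b * a = a := by
  have h1 : Module.Finite ℚ A := finite_of_form ρ τ T hτ hnd hinj
  have h2 : IsArtinianRing A := IsArtinianRing.of_finite ℚ A
  have h3 : Ring.jacobson A = ⊥ := by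
    rw [eq_bot_iff]
    intro x hx
    rw [Submodule.mem_bot]
    by_contra hne
    obtain ⟨b, hb⟩ := hnd x (by rwa [Ne, map_eq_zero_iff ρ hinj])
    apply hb
    have h4 : b * x ∈ Ring.jacobson A := Ideal.mul_mem_left _ _ hx
    obtain ⟨n, hn⟩ : IsNilpotent (Ring.jacobson A) := IsSemiprimaryRing.isNilpotent
    have h5 : (b * x) ^ n = 0 := by
      have := Ideal.pow_mem_pow h4 n
      rwa [hn] at this
    exact hnil _ ⟨n, by rw [← map_pow, h5, map_zero]⟩
  have h4 : IsSemisimpleRing A := IsArtinianRing.isSemisimpleRing_iff_jacobson.2 h3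
  obtain ⟨N, hN⟩ := exists_isCompl (Submodule.span A ({a} : Set A))
  have h5 : (1 : A) ∈ Submodule.span A ({a} : Set A) ⊔ N := by
    rw [hN.sup_eq_top]
    trivial
  obtain ⟨x, hx, y, hy, hxy⟩ := Submodule.mem_sup.1 h5
  obtain ⟨b, rfl⟩ := Submodule.mem_span_singleton.1 hx
  refine ⟨b, ?_⟩
  have h6 : a * y ∈ N := N.smul_mem a hy
  have h7 : a * y = a - a * b * a := by
    have : y = 1 - b * a := by rw [← hxy]; simp
    rw [this, mul_sub, mul_one, mul_assoc]
  have h8 : a * y ∈ Submodule.span A ({a} : Set A) := by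
    rw [h7]
    exact Submodule.sub_mem _ (Submodule.mem_span_singleton_self a)
      (Submodule.mem_span_singleton.2 ⟨a * b, rfl⟩)
  have h9 : a * y = 0 := by
    have := hN.disjoint.le_bot ⟨h8, h6⟩
    simpa using this
  rw [h7, sub_eq_zero] at h9
  exact h9.symm

/-- Von Neumann regularity modulo the kernel of a representation. -/
theorem regular_mod (a : A) : ∃ b, ρ (a * b * a) = ρ a := by
  let K : Ideal A := RingHom.ker ρ
  let ρ' : A ⧸ K →+* B := RingHom.kerLift ρ
  have hker : K.restrictScalars ℚ ≤ LinearMap.ker τ := by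
    intro x hx
    have h1 : ρ x = 0 := hx
    have h2 := hτ x
    rw [h1, map_zero] at h2
    exact (map_eq_zero _).1 h2.symm
  let τ' : (A ⧸ K) →ₗ[ℚ] ℚ := (K.restrictScalars ℚ).liftQ τ hker
  have h1 : ∀ x, T (ρ' x) = algebraMap ℚ E (τ' x) := by
    intro x
    obtain ⟨x, rfl⟩ := Ideal.Quotient.mk_surjective x
    exact hτ x
  have h2 : ∀ x, IsNilpotent (ρ' x) → τ' x = 0 := by
    intro x
    obtain ⟨x, rfl⟩ := Ideal.Quotient.mk_surjective x
    exact hnil x
  have h3 : ∀ x, ρ' x ≠ 0 → ∃ b, τ' (b * x) ≠ 0 := by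
    intro x hx
    obtain ⟨x, rfl⟩ := Ideal.Quotient.mk_surjective x
    obtain ⟨b, hb⟩ := hnd x hx
    exact ⟨Ideal.Quotient.mk K b, hb⟩
  obtain ⟨b, hb⟩ := regular_inj ρ' τ' T h1 h2 h3 (RingHom.kerLift_injective ρ)
    (Ideal.Quotient.mk K a)
  obtain ⟨b, rfl⟩ := Ideal.Quotient.mk_surjective b
  refine ⟨b, ?_⟩
  rw [← map_mul, ← map_mul] at hb
  exact congrArg ρ' hb

end

end Pool.Agent.U735.CV
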