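import Pool.Agent.U735.CV.Defs
import Pool.Agent.U735.CV.Alg

/-!
# Regularity of the morphisms of Chow motives modulo the kernel of the realisation
-/

set_option autoImplicit false
set_option linter.unusedSectionVars false
set_option linter.unusedSimpArgs false
set_option backward.isDefEq.respectTransparency false
set_option backward.defeqAttrib.useBackward true

open CategoryTheory Limits MonoidalCategory Pretriangulated

namespace Pool.Agent.U735.CV

open Pool.Agent.Y116.MT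
open Functor.LaxMonoidal

universe v u v' u' w

section

variable {C : Type u} [Category.{v} C] [MonoidalCategory C] [SymmetricCategory C]
  [RightRigidCategory C] [Preadditive C] [MonoidalPreadditive C] [Linear ℚ C]
  {D : Type u'} [Category.{v'} D] [MonoidalCategory D] [SymmetricCategory D] [Preadditive D]
  [MonoidalPreadditive D] {E : Type w} [Field E] [CharZero E] [Linear E D] [MonoidalLinear E D]
  (F : C ⥤ D) [F.Braided] [F.Additive]

lemma map_nm_ne {P Q : C} (f : P ⟶ Q) (hf : F.map f ≠ 0) : F.map (nm f) ≠ 0 := by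
  intro h
  apply hf
  rw [nm_recover f]
  simp only [Functor.map_comp, Functor.Monoidal.map_whiskerRight, h]
  simp

/-- The ring homomorphism of endomorphism rings. -/
def endMap (P : C) : End P →+* End (F.obj P) where
  toFun a := F.map a
  map_one' := F.map_id _
  map_mul' _ _ := F.map_comp _ _
  map_zero' := F.map_zero _ _
  map_add' _ _ := F.map_add

/-- The operator whose value at `F(a)` is the realisation of the trace of `a`. -/
noncomputable def trF (P : C) : (F.obj P ⟶ F.obj P) →ₗ[E] (𝟙_ D ⟶ 𝟙_ D) where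
  toFun b := ε F ≫ F.map (η_ P Pᘁ) ≫ inv (μ F P Pᘁ) ≫ (b ▷ F.obj Pᘁ) ≫ μ F P Pᘁ ≫
    F.map ((β_ P Pᘁ).hom ≫ ε_ P Pᘁ) ≫ inv (ε F)
  map_add' x y := by simp [MonoidalPreadditive.add_whiskerRight]
  map_smul' c x := by simp [MonoidalLinear.smul_whiskerRight]

lemma trF_map (P : C) (a : P ⟶ P) :
    trF (E := E) F P (F.map a) = ε F ≫ F.map (tr a) ≫ inv (ε F) := by
  change ε F ≫ F.map (η_ P Pᘁ) ≫ inv (μ F P Pᘁ) ≫ (F.map a ▷ F.obj Pᘁ) ≫ μ F P Pᘁ ≫
    F.map ((β_ P Pᘁ).hom ≫ ε_ P Pᘁ) ≫ inv (ε F) = _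
  rw [μ_natural_left_assoc, IsIso.inv_hom_id_assoc]
  simp only [tr, Functor.map_comp, Category.assoc]

lemma map_rat_smul' {X Y : C} (q : ℚ) (f : X ⟶ Y) : F.map (q • f) = (q : E) • F.map f := by
  have h := map_ratCast_smul (F.mapAddHom (X := X) (Y := Y)) ℚ E q f
  simpa using h

lemma tr_add' {X : C} (a b : X ⟶ X) : tr (a + b) = tr a + tr b := by
  simp [tr, MonoidalPreadditive.add_whiskerRight]

/-- The rational number of an endomorphism of the unit. -/
noncomputable def rat (hQ : ∀ e : 𝟙_ C ⟶ 𝟙_ C, ∃ q : ℚ, e = q • 𝟙 (𝟙_ C)) (e : 𝟙_ C ⟶ 𝟙_ C) : ℚ :=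
  (hQ e).choose

lemma rat_spec (hQ : ∀ e : 𝟙_ C ⟶ 𝟙_ C, ∃ q : ℚ, e = q • 𝟙 (𝟙_ C)) (e : 𝟙_ C ⟶ 𝟙_ C) :
    e = rat hQ e • 𝟙 (𝟙_ C) :=
  (hQ e).choose_spec

include F in
lemma unit_ne (hD : IsVectorLike E D) : 𝟙 (𝟙_ C) ≠ 0 := by
  intro h8
  apply hD.unit_ne
  have h9 : 𝟙 (𝟙_ D) = ε F ≫ F.map (𝟙 (𝟙_ C)) ≫ inv (ε F) := by simp
  rw [h9, h8, Functor.map_zero, zero_comp, comp_zero]

variable (hQ : ∀ e : 𝟙_ C ⟶ 𝟙_ C, ∃ q : ℚ, e = q • 𝟙 (𝟙_ C)) (hD : IsVectorLike E D)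

include hQ hD

theorem regular_end {P : C} (hnum : ∀ z : 𝟙_ C ⟶ P ⊗ Pᘁ, (∀ r : P ⊗ Pᘁ ⟶ 𝟙_ C, z ≫ r = 0) → F.map z = 0)
    (hnil : ∀ a : P ⟶ P, IsNilpotent (End.of (F.map a)) → tr a = 0) (a : P ⟶ P) :
    ∃ b : P ⟶ P, F.map (a ≫ b ≫ a) = F.map a := by
  let _ : Algebra ℚ E := DivisionRing.toRatAlgebra
  have hinj : Function.Injective (fun q : ℚ => q • 𝟙 (𝟙_ C)) := by
    intro p q hpq
    have h1 : (p - q) • 𝟙 (𝟙_ C) = 0 := by
      rw [sub_smul, sub_eq_zero]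
      exact hpq
    by_contra hne
    exact unit_ne F hD ((smul_eq_zero_iff_right (sub_ne_zero.2 hne)).1 h1)
  let τ0 : End P →+ ℚ := AddMonoidHom.mk' (fun a : End P => rat hQ (tr (X := P) a)) (by
    intro a b
    apply hinj
    have h1 : tr (X := P) (a + b) = tr (X := P) a + tr (X := P) b := tr_add' a b
    have h2 : rat hQ (tr (X := P) (a + b)) • 𝟙 (𝟙_ C) = (rat hQ (tr (X := P) a) +
        rat hQ (tr (X := P) b)) • 𝟙 (𝟙_ C) := by
      rw [add_smul, ← rat_spec, ← rat_spec, ← rat_spec, h1]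
    exact h2)
  let τ : End P →ₗ[ℚ] ℚ := τ0.toRatLinearMap
  let φ0 : E →ₗ[E] (𝟙_ D ⟶ 𝟙_ D) := LinearMap.toSpanSingleton E _ (𝟙 (𝟙_ D))
  have hφ : Function.Bijective φ0 := by
    constructor
    · rw [injective_iff_map_eq_zero]
      intro c hc
      have h1 : c • 𝟙 (𝟙_ D) = 0 := hc
      rcases smul_eq_zero.1 h1 with h | h
      · exact h
      · exact absurd h hD.unit_ne
    · intro e
      obtain ⟨c, hc⟩ := hD.unit_end e
      exact ⟨c, hc.symm⟩
  let φ := LinearEquiv.ofBijective φ0 hφ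
  let T : End (F.obj P) →ₗ[E] E := φ.symm.toLinearMap ∘ₗ trF (E := E) F P
  have hfin : Module.Finite E (End (F.obj P)) := hD.finite _ _
  have hT : ∀ a : End P, T (endMap F P a) = algebraMap ℚ E (τ a) := by
    intro a
    apply φ.injective
    change φ (φ.symm (trF (E := E) F P (F.map (show P ⟶ P from a)))) = (algebraMap ℚ E (τ a)) • 𝟙 (𝟙_ D)
    rw [LinearEquiv.apply_symm_apply, trF_map, rat_spec hQ (tr (show P ⟶ P from a)),
      map_rat_smul' (E := E), Linear.smul_comp, Linear.comp_smul]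
    simp [τ, τ0]
  have hnil' : ∀ a : End P, IsNilpotent (endMap F P a) → τ a = 0 := by
    intro a ha
    apply hinj
    have h1 := hnil a ha
    have h2 := rat_spec hQ (tr (show P ⟶ P from a))
    change rat hQ (tr (show P ⟶ P from a)) • 𝟙 (𝟙_ C) = (0 : ℚ) • 𝟙 (𝟙_ C)
    rw [← h2, h1, zero_smul]
  have hnd : ∀ a : End P, endMap F P a ≠ 0 → ∃ b : End P, τ (b * a) ≠ 0 := by
    intro a ha
    have h1 : F.map (nm (show P ⟶ P from a)) ≠ 0 := map_nm_ne F _ ha
    by_contra hcon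
    push Not at hcon
    apply h1
    apply hnum
    intro r
    obtain ⟨b, hb⟩ := exists_tr r
    rw [hb, rat_spec hQ (tr ((show P ⟶ P from a) ≫ b))]
    have h2 : rat hQ (tr ((show P ⟶ P from a) ≫ b)) = 0 := hcon b
    rw [h2, zero_smul]
  obtain ⟨b, hb⟩ := regular_mod (endMap F P) τ T hT hnil' hnd a
  exact ⟨b, hb⟩

end

end Pool.Agent.U735.CV
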