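import Pool.Agent.U735.CV.Kos
import Pool.Agent.U735.CV.Reg

/-!
# Conservativity of a realisation of geometric motives
-/

set_option autoImplicit false
set_option linter.unusedSectionVars false
set_option linter.unusedSimpArgs false
set_option backward.isDefEq.respectTransparency false
set_option backward.defeqAttrib.useBackward true

open CategoryTheory Limits MonoidalCategory Pretriangulated Triangulated

namespace Pool.Agent.U735.CV

open Pool.Agent.Y116.MT
open Functor.LaxMonoidal

universe v u v' u' w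

section

variable {C : Type u} [Category.{v} C] [Preadditive C] [HasZeroObject C] [HasShift C ℤ]
  [∀ n : ℤ, (shiftFunctor C n).Additive] [Pretriangulated C] [IsTriangulated C]
  {D : Type u'} [Category.{v'} D] [Preadditive D] [HasZeroObject D] [HasShift D ℤ]
  {Chow : ObjectProperty C} {F : C ⥤ D} [F.Additive] [F.CommShift ℤ] {E : Type w} [Field E]

/-- A class built from `P₀, P₁⟦-1⟧, …` has no classes of weight `m` in degrees less than `m`. -/
lemma gr_zero (W : Weights Chow F E) (n : ℕ) : ∀ (X : C), ChowComplex Chow n X →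
    ∀ m i : ℤ, i < m → IsZero ((W.gr m).obj (X⟦i⟧)) := by
  induction n with
  | zero =>
    intro X hX m i _
    have := W.homological m
    exact (W.gr m).map_isZero ((shiftFunctor C i).map_isZero hX)
  | succ n ih =>
    rintro X ⟨P, Y, e, h, k, hP, hY, hT⟩ m i hi
    have := W.homological m
    exact hz1 (W.gr m) hT i (W.pure m i P hP hi.ne) (ih Y hY m (i - 1) (by omega))

/-- An object of `ChowComplex` with zero realisation is zero. -/
lemma zero_of_realisation (hsum : ∀ {P Q : C} (i : P ⟶ Q) (r : Q ⟶ P), i ≫ r = 𝟙 P → Chow Q →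
    Chow P) (W : Weights Chow F E) (h2 : ReflectsSplitMono Chow F) (n : ℕ) :
    ∀ (X : C), ChowComplex Chow n X → IsZero (F.obj X) → IsZero X := by
  induction n with
  | zero => intro X hX _; exact hX
  | succ n ih =>
    rintro X ⟨P, Y, e, h, k, hP, hY, hT⟩ hX0
    cases n with
    | zero =>
      have hY0 : IsZero Y := hY
      have h3 : IsIso e := (Triangle.isZero₃_iff_isIso₁ _ hT).1 hY0
      have hFP : IsZero (F.obj P) := hX0.of_iso (F.mapIso (asIso e)).symm
      have h4 : IsSplitMono (0 : P ⟶ P) := h2 P P 0 hP hP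
        ⟨⟨⟨0, hFP.eq_of_src _ _⟩⟩⟩
      have h5 : IsZero P := by
        rw [IsZero.iff_id_eq_zero, ← IsSplitMono.id (0 : P ⟶ P), zero_comp]
      exact h5.of_iso (asIso e)
    | succ n =>
      obtain ⟨Q, Z, e', h', k', hQ, hZ, hT'⟩ := hY
      have hshift : ∀ m : ℤ, IsZero (F.obj (X⟦m⟧)) := fun m =>
        ((shiftFunctor D m).map_isZero hX0).of_iso ((F.commShiftIso m).app X)
      have hd : IsSplitMono (F.map (h ≫ e')) := by
        refine W.mono _ hP hQ fun m => ?_
        have := W.homological m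
        rw [Functor.map_comp, Functor.map_comp]
        have h3 := hmono2 (W.gr m) hT m (W.zero m _ (hshift m))
        have h4 := hmono1 (W.gr m) hT' m (gr_zero W n Z hZ m (m - 1) (by omega))
        exact mono_comp _ _
      have hd' : IsSplitMono (h ≫ e') := h2 _ _ _ hP hQ hd
      obtain ⟨Q', q, δ, hTd⟩ := distinguished_cocone_triangle (h ≫ e')
      have hδ : δ = 0 := by
        have h3 := comp31 hTd
        calc δ = δ ≫ (h ≫ e')⟦(1 : ℤ)⟧' ≫ (retraction (h ≫ e'))⟦(1 : ℤ)⟧' := by
              rw [← Functor.map_comp, IsSplitMono.id, CategoryTheory.Functor.map_id]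
              exact (Category.comp_id _).symm
          _ = 0 := by rw [← Category.assoc, h3, zero_comp]
      obtain ⟨l, hl⟩ := ce3 hTd (𝟙 _) (by rw [hδ, comp_zero])
      have hQ' : Chow Q' := hsum l q hl.symm hQ
      have ho := (someOctahedron (u₁₂ := h) (u₂₃ := e') rfl (rotD hT) hT' hTd)
      have hX1 : ChowComplex Chow (n + 1) (X⟦(1 : ℤ)⟧) :=
        ⟨Q', Z, ho.m₁, ho.m₃, _, hQ', hZ, ho.mem⟩
      have h5 := ih _ hX1 (hshift 1)
      rw [IsZero.iff_id_eq_zero] at h5 ⊢
      apply (shiftFunctor C (1 : ℤ)).map_injective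
      rw [CategoryTheory.Functor.map_id, h5, Functor.map_zero]

/-- If split monomorphisms between Chow motives are reflected, the functor is conservative. -/
lemma conservative_of_splitMono [∀ n : ℤ, (shiftFunctor D n).Additive] [Pretriangulated D]
    [F.IsTriangulated]
    (hsum : ∀ {P Q : C} (i : P ⟶ Q) (r : Q ⟶ P), i ≫ r = 𝟙 P → Chow Q → Chow P)
    (hgen : ∀ X : C, ∃ (n : ℕ) (b : ℤ), ChowComplex Chow n (X⟦b⟧))
    (W : Weights Chow F E) (h2 : ReflectsSplitMono Chow F) : F.ReflectsIsomorphisms := by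
  refine ⟨fun {X Y} f hf => ?_⟩
  obtain ⟨Z, g, h, hT⟩ := distinguished_cocone_triangle f
  have h1 : IsZero (F.obj Z) := (Triangle.isZero₃_iff_isIso₁ _ (F.map_distinguished _ hT)).2 hf
  obtain ⟨n, b, hb⟩ := hgen Z
  have h3 := zero_of_realisation hsum W h2 n _ hb
    (((shiftFunctor D b).map_isZero h1).of_iso ((F.commShiftIso b).app Z))
  have h4 : IsZero Z := by
    rw [IsZero.iff_id_eq_zero] at h3 ⊢
    apply (shiftFunctor C b).map_injective
    rw [CategoryTheory.Functor.map_id, h3, Functor.map_zero]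
  exact (Triangle.isZero₃_iff_isIso₁ _ hT).1 h4

end

section

variable {C : Type u} [Category.{v} C] [Preadditive C] [HasZeroObject C] [HasShift C ℤ]
  [∀ n : ℤ, (shiftFunctor C n).Additive] [Pretriangulated C] [IsTriangulated C]
  [MonoidalCategory C] [SymmetricCategory C] [TensorTriangulated C] [MonoidalPreadditive C]
  [RightRigidCategory C] [Linear ℚ C]
  {D : Type u'} [Category.{v'} D] [Preadditive D] [HasZeroObject D] [HasShift D ℤ]
  [∀ n : ℤ, (shiftFunctor D n).Additive] [Pretriangulated D] [MonoidalCategory D]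
  [SymmetricCategory D] [MonoidalPreadditive D] {E : Type w} [Field E] [CharZero E] [Linear E D]
  [MonoidalLinear E D]
  {Chow : ObjectProperty C} {F : C ⥤ D} [F.Braided] [F.Additive] [F.CommShift ℤ]
  [F.IsTriangulated]

lemma regular_hom (hC : IsChowClass Chow) (hD : IsVectorLike E D)
    (hQ : ∀ e : 𝟙_ C ⟶ 𝟙_ C, ∃ q : ℚ, e = q • 𝟙 (𝟙_ C)) (hn : HomEqualsNum Chow F)
    (ht : NilTrace Chow F) {P Q : C} (hP : Chow P) (hQ' : Chow Q) (f : P ⟶ Q) :
    ∃ g : Q ⟶ P, F.map (f ≫ g ≫ f) = F.map f := by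
  let S : C := P ⊞ Q
  have hS : Chow S := hC.sum hP hQ'
  let a : S ⟶ S := biprod.fst ≫ f ≫ biprod.inr
  obtain ⟨b, hb⟩ := regular_end F hQ hD (P := S)
    (fun z hz => hn _ z (hC.tensor hS (hC.dual hS)) hz) (fun a ha => ht S a hS ha) a
  refine ⟨biprod.inr ≫ b ≫ biprod.fst, ?_⟩
  have h2 := congrArg (fun x => F.map biprod.inl ≫ x ≫ F.map biprod.snd) hb
  simpa [a, ← Functor.map_comp] using h2

theorem main (hC : IsChowClass Chow) (hD : IsVectorLike E D)
    (hQ : ∀ e : 𝟙_ C ⟶ 𝟙_ C, ∃ q : ℚ, e = q • 𝟙 (𝟙_ C)) (W : Weights Chow F E)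
    (ht : NilTrace Chow F) (he : EvenClasses Chow F) :
    List.TFAE [F.ReflectsIsomorphisms, ReflectsSplitMono Chow F,
      ReflectsIso Chow F ∧ HomEqualsNum Chow F] := by
  tfae_have 1 → 3 := by
    intro h
    refine ⟨fun P Q f _ _ hf => isIso_of_reflects_iso f F, fun P z hP hz => ?_⟩
    by_contra hne
    obtain ⟨Q, f, π, n, hQ', hf, hπ, hn⟩ := he P z hP hne
    obtain ⟨r, hr⟩ := num_trivial (E := E) F hD (z ≫ f) π (by simpa using hπ) n hn hf Chow
      hC.unit (fun X hX => hC.tensor hX hQ') (fun X hX m hm f => hC.negative m hX hC.unit hm f)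
    exact hr (by rw [Category.assoc, hz])
  tfae_have 3 → 2 := by
    rintro ⟨h1, h2⟩ P Q f hP hQ' hf
    obtain ⟨g, hg⟩ := regular_hom hC hD hQ h2 ht hP hQ' f
    have h3 : F.map (f ≫ g) = 𝟙 _ := by
      have h4 := congrArg (fun x => x ≫ retraction (F.map f)) hg
      simpa using h4
    have h4 : IsIso (f ≫ g) := h1 P P _ hP hP (by rw [h3]; infer_instance)
    exact ⟨⟨⟨g ≫ inv (f ≫ g), by rw [← Category.assoc, IsIso.hom_inv_id]⟩⟩⟩
  tfae_have 2 → 1 := by
    intro h
    exact conservative_of_splitMono hC.summand hC.generate W h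
  tfae_finish

end

end Pool.Agent.U735.CV
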