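import Pool.Agent.Y116.MT.AltFun

/-!
# Naturality of the antisymmetrizer
-/

set_option autoImplicit false
set_option linter.unusedSectionVars false
set_option linter.unusedSimpArgs false
set_option backward.isDefEq.respectTransparency false
set_option backward.defeqAttrib.useBackward true

open CategoryTheory Limits MonoidalCategory

namespace Pool.Agent.U735.CV

open Pool.Agent.Y116.MT

universe v u

section

variable {D : Type u} [Category.{v} D] [MonoidalCategory D] [SymmetricCategory D]
  {X X' V V' : D} (x : X ⟶ X') (i : V ⟶ V')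

/-- The map of powers induced by maps of the factors. -/
def pm : ∀ n : ℕ, pw X V n ⟶ pw X' V' n
  | 0 => x
  | n + 1 => pm n ⊗ₘ i

@[simp] lemma pm_zero : pm x i 0 = x := rfl

lemma pm_succ (n : ℕ) : pm x i (n + 1) = pm x i n ⊗ₘ i := rfl

lemma exch_natural_both {W W' P P' : D} (w : W ⟶ W') (p : P ⟶ P') :
    ((w ⊗ₘ i) ⊗ₘ p) ≫ (exch W' V' P').hom = (exch W V P).hom ≫ ((w ⊗ₘ p) ⊗ₘ i) := by
  simp only [exch, Iso.trans_hom, whiskerLeftIso_hom, Iso.symm_hom, Category.assoc]
  rw [associator_naturality_assoc, ← associator_inv_naturality]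
  simp only [← id_tensorHom, tensorHom_comp_tensorHom_assoc, Category.comp_id, Category.id_comp,
    BraidedCategory.braiding_naturality]

lemma mv_pm (n : ℕ) : ∀ j : Fin (n + 1),
    mv X V n j ≫ pm x i (n + 1) = pm x i (n + 1) ≫ mv X' V' n j := by
  induction n with
  | zero =>
    intro j
    simp [mv]
  | succ n ih =>
    intro j
    refine Fin.lastCases ?_ (fun j => ?_) j
    · simp
    · rw [mv_castSucc, mv_castSucc]
      have h2 : (exch (pw X V n) V V).hom ≫ pm x i (n + 1 + 1) =
          pm x i (n + 1 + 1) ≫ (exch (pw X' V' n) V' V').hom := by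
        rw [pm_succ, pm_succ]
        exact (exch_natural_both i (pm x i n) i).symm
      have h3 : (mv X V n j ▷ V) ≫ pm x i (n + 1 + 1) =
          pm x i (n + 1 + 1) ≫ (mv X' V' n j ▷ V') := by
        rw [pm_succ x i (n + 1)]
        simp only [← tensorHom_id, tensorHom_comp_tensorHom, Category.comp_id, Category.id_comp,
          ih]
      rw [Category.assoc, h2, ← Category.assoc, h3, Category.assoc]

lemma pm_id (n : ℕ) : pm (𝟙 X) (𝟙 V) n = 𝟙 _ := by
  induction n with
  | zero => rfl
  | succ n ih => rw [pm_succ, ih]; exact MonoidalCategory.id_tensorHom_id _ _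

lemma pm_comp {X'' V'' : D} (x' : X' ⟶ X'') (i' : V' ⟶ V'') (n : ℕ) :
    pm x i n ≫ pm x' i' n = pm (x ≫ x') (i ≫ i') n := by
  induction n with
  | zero => rfl
  | succ n ih =>
    simp only [pm_succ, tensorHom_comp_tensorHom, ih]

variable [Preadditive D] [MonoidalPreadditive D]

lemma alt_pm (n : ℕ) : alt X V n ≫ pm x i n = pm x i n ≫ alt X' V' n := by
  induction n with
  | zero => simp [alt]
  | succ n ih =>
    simp only [alt, Preadditive.sum_comp, Preadditive.comp_sum]
    refine Finset.sum_congr rfl (fun j _ => ?_)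
    rw [Preadditive.zsmul_comp, Preadditive.comp_zsmul]
    have h3 : (alt X V n ▷ V) ≫ pm x i (n + 1) = pm x i (n + 1) ≫ (alt X' V' n ▷ V') := by
      rw [pm_succ x i n]
      simp only [← tensorHom_id, tensorHom_comp_tensorHom, Category.comp_id, Category.id_comp,
        ih]
    rw [Category.assoc, h3, ← Category.assoc, mv_pm, Category.assoc]

/-- The antisymmetrizer vanishes on a retract of an object where it vanishes. -/
lemma alt_retract (n : ℕ) (r : V' ⟶ V) (hr : i ≫ r = 𝟙 _) (h : alt X V' n = 0) :
    alt X V n = 0 := by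
  have h1 : pm (𝟙 X) i n ≫ pm (𝟙 X) r n = 𝟙 _ := by
    rw [pm_comp, hr, Category.comp_id, pm_id]
  have h2 := alt_pm (𝟙 X) i n
  rw [h, comp_zero] at h2
  calc alt X V n = alt X V n ≫ (pm (𝟙 X) i n ≫ pm (𝟙 X) r n) := by rw [h1, Category.comp_id]
    _ = 0 := by rw [← Category.assoc, h2, zero_comp]

end

end Pool.Agent.U735.CV
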