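import Pool.Agent.Y116.MT.Trace
import Pool.Agent.U735.CV.AltNat

/-!
# Geometric motives, Chow motives, and a realisation with weights

The definitions used in the theorem on the conservativity of realisations.
-/

set_option autoImplicit false

open CategoryTheory Limits MonoidalCategory Pretriangulated

namespace Pool.Agent.U735.CV

open Pool.Agent.Y116.MT

universe v u v' u' w

section

variable {C : Type u} [Category.{v} C] [Preadditive C] [HasZeroObject C] [HasShift C ℤ]
  [∀ n : ℤ, (shiftFunctor C n).Additive] [Pretriangulated C]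

/-- `X` is an iterated extension of objects `P₀, P₁⟦-1⟧, …, Pₙ₋₁⟦-n + 1⟧` with all `Pᵢ` in
`Chow`: there is a triangle `X ⟶ P₀ ⟶ Y ⟶ X⟦1⟧` with `Y` an iterated extension of
`P₁, P₂⟦-1⟧, …`. -/
def ChowComplex (Chow : ObjectProperty C) : ℕ → C → Prop
  | 0, X => IsZero X
  | n + 1, X => ∃ (P Y : C) (e : X ⟶ P) (h : P ⟶ Y) (i : Y ⟶ X⟦(1 : ℤ)⟧),
      Chow P ∧ ChowComplex Chow n Y ∧ Triangle.mk e h i ∈ distTriang C

/-- `Chow` has the formal properties of the class of Chow motives in the category of geometric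
motives. -/
structure IsChowClass [MonoidalCategory C] [RightRigidCategory C]
    (Chow : ObjectProperty C) : Prop where
  unit : Chow (𝟙_ C)
  summand {P Q : C} (i : P ⟶ Q) (r : Q ⟶ P) : i ≫ r = 𝟙 P → Chow Q → Chow P
  sum {P Q : C} : Chow P → Chow Q → Chow (P ⊞ Q)
  tensor {P Q : C} : Chow P → Chow Q → Chow (P ⊗ Q)
  dual {P : C} : Chow P → Chow Pᘁ
  negative {P Q : C} (n : ℤ) : Chow P → Chow Q → 0 < n → ∀ f : P ⟶ Q⟦n⟧, f = 0
  generate (X : C) : ∃ (n : ℕ) (b : ℤ), ChowComplex Chow n (X⟦b⟧)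

end

/-- `D` has the formal properties of the bounded derived category of finite dimensional vector
spaces over the field `E` which are used below. -/
structure IsVectorLike (E : Type w) [Field E] (D : Type u') [Category.{v'} D] [Preadditive D]
    [Linear E D] [MonoidalCategory D] : Prop where
  unit_ne : 𝟙 (𝟙_ D) ≠ 0
  unit_end (e : 𝟙_ D ⟶ 𝟙_ D) : ∃ c : E, e = c • 𝟙 (𝟙_ D)
  finite (X Y : D) : Module.Finite E (X ⟶ Y)
  split {X : D} (w : 𝟙_ D ⟶ X) : w ≠ 0 → ∃ r : X ⟶ 𝟙_ D, w ≫ r = 𝟙 _

section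

variable {C : Type u} [Category.{v} C] [Preadditive C] [HasZeroObject C] [HasShift C ℤ]
  [∀ n : ℤ, (shiftFunctor C n).Additive] [Pretriangulated C]
  {D : Type u'} [Category.{v'} D] [Preadditive D]

/-- The graded pieces `gr m` of the weight filtration of the zeroth cohomology of the realisation
`F`: the `i`-th cohomology of the realisation of a Chow motive has weight `i`. -/
structure Weights (Chow : ObjectProperty C) (F : C ⥤ D) (E : Type w) [Field E] where
  gr : ℤ → C ⥤ ModuleCat.{w} E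
  homological (m : ℤ) : (gr m).IsHomological
  zero (m : ℤ) (X : C) : IsZero (F.obj X) → IsZero ((gr m).obj X)
  pure (m i : ℤ) (P : C) : Chow P → i ≠ m → IsZero ((gr m).obj (P⟦i⟧))
  mono {P Q : C} (f : P ⟶ Q) : Chow P → Chow Q → (∀ m, Mono ((gr m).map (f⟦m⟧'))) →
    IsSplitMono (F.map f)

/-- `F` reflects split monomorphisms between Chow motives. -/
def ReflectsSplitMono (Chow : ObjectProperty C) (F : C ⥤ D) : Prop :=
  ∀ (P Q : C) (f : P ⟶ Q), Chow P → Chow Q → IsSplitMono (F.map f) → IsSplitMono f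

/-- `F` reflects isomorphisms between Chow motives. -/
def ReflectsIso (Chow : ObjectProperty C) (F : C ⥤ D) : Prop :=
  ∀ (P Q : C) (f : P ⟶ Q), Chow P → Chow Q → IsIso (F.map f) → IsIso f

/-- The classes `z : 𝟙 ⟶ P` with `P` a Chow motive which are numerically equivalent to zero have
zero realisation. -/
def HomEqualsNum [MonoidalCategory C] (Chow : ObjectProperty C) (F : C ⥤ D) : Prop :=
  ∀ (P : C) (z : 𝟙_ C ⟶ P), Chow P → (∀ r : P ⟶ 𝟙_ C, z ≫ r = 0) → F.map z = 0

/-- Classes with non zero realisation can be moved to Chow motives where they are fixed by an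
endomorphism `π` such that some exterior power of `F(π)` is zero. -/
def EvenClasses [MonoidalCategory C] [MonoidalCategory D] [SymmetricCategory D]
    (Chow : ObjectProperty C) (F : C ⥤ D) : Prop :=
  ∀ (P : C) (z : 𝟙_ C ⟶ P), Chow P → F.map z ≠ 0 → ∃ (Q : C) (f : P ⟶ Q) (π : Q ⟶ Q) (n : ℕ),
    Chow Q ∧ F.map (z ≫ f) ≠ 0 ∧ z ≫ f ≫ π = z ≫ f ∧
      alt (𝟙_ D) (F.obj Q) n ≫ pm (𝟙 _) (F.map π) n = 0

/-- The trace of an endomorphism of a Chow motive with nilpotent realisation is zero. -/
def NilTrace [MonoidalCategory C] [SymmetricCategory C] [RightRigidCategory C]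
    (Chow : ObjectProperty C) (F : C ⥤ D) : Prop :=
  ∀ (P : C) (a : P ⟶ P), Chow P → IsNilpotent (End.of (F.map a)) → tr a = 0

end

end Pool.Agent.U735.CV
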