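import Pool.Agent.U735.CV.Defs

/-!
# A conservative realisation detects numerically trivial classes
-/

set_option autoImplicit false
set_option linter.unusedSectionVars false
set_option linter.unusedSimpArgs false
set_option backward.isDefEq.respectTransparency false
set_option backward.defeqAttrib.useBackward true

open CategoryTheory Limits MonoidalCategory Pretriangulated

namespace Pool.Agent.U735.CV

open Pool.Agent.Y116.MT
open Functor.LaxMonoidal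

universe v u v' u' w

section

variable {C : Type u} [Category.{v} C] [MonoidalCategory C] [SymmetricCategory C]
  {D : Type u'} [Category.{v'} D] [MonoidalCategory D] [SymmetricCategory D]
  (F : C ⥤ D) [F.Braided]

lemma kap_isIso (X Z : C) (n : ℕ) : IsIso (kap F X Z n) := by
  induction n with
  | zero => simp only [kap]; infer_instance
  | succ n ih =>
    simp only [kap]
    infer_instance

lemma kap_natural {X X' Z Z' : C} (x : X ⟶ X') (ζ : Z ⟶ Z') (n : ℕ) :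
    kap F X Z n ≫ F.map (pm x ζ n) = pm (F.map x) (F.map ζ) n ≫ kap F X' Z' n := by
  induction n with
  | zero => simp [kap]
  | succ n ih =>
    simp only [kap, pm_succ, Category.assoc]
    rw [← μ_natural, ← tensorHom_id, ← tensorHom_id, tensorHom_comp_tensorHom_assoc, ih,
      tensorHom_comp_tensorHom_assoc]
    simp

variable [Preadditive C] [Preadditive D] [MonoidalPreadditive D] [F.Additive]

lemma map_alt_zero {Z Z' : C} (ζ : Z ⟶ Z') (n : ℕ)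
    (h : alt (𝟙_ D) (F.obj Z) n ≫ pm (𝟙 _) (F.map ζ) n = 0) :
    F.map (alt (𝟙_ C) Z n ≫ pm (𝟙 _) ζ n) = 0 := by
  have h1 := kap_isIso F (𝟙_ C) Z n
  have h2 : IsIso (pm (ε F) (𝟙 (F.obj Z)) n) := by
    refine ⟨pm (inv (ε F)) (𝟙 (F.obj Z)) n, ?_, ?_⟩
    · rw [pm_comp, IsIso.hom_inv_id, Category.comp_id, pm_id]
    · rw [pm_comp, IsIso.inv_hom_id, Category.comp_id, pm_id]
  rw [← cancel_epi (pm (ε F) (𝟙 (F.obj Z)) n ≫ kap F (𝟙_ C) Z n), comp_zero, Functor.map_comp,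
    Category.assoc, ← reassoc_of% (alt_lax F (𝟙_ C) Z n), kap_natural, ← reassoc_of% (alt_pm (ε F) (𝟙 (F.obj Z)) n),
    ← Category.assoc (pm (ε F) (𝟙 (F.obj Z)) n), pm_comp]
  have h3 : pm (𝟙 (𝟙_ D)) (F.map ζ) n ≫ pm (ε F) (𝟙 (F.obj Z')) n =
      pm (ε F ≫ F.map (𝟙 (𝟙_ C))) (𝟙 (F.obj Z) ≫ F.map ζ) n := by
    rw [pm_comp]
    simp
  rw [← h3, Category.assoc, reassoc_of% h, zero_comp]

end

section

variable {C : Type u} [Category.{v} C] [Preadditive C] [HasZeroObject C] [HasShift C ℤ]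
  [∀ n : ℤ, (shiftFunctor C n).Additive] [Pretriangulated C] [MonoidalCategory C]
  [SymmetricCategory C] [TensorTriangulated C] [MonoidalPreadditive C]

lemma pm_starN {Z : C} (δ : Z ⟶ (𝟙_ C)⟦(1 : ℤ)⟧) (ζ : Z ⟶ Z) (hζ : ζ ≫ δ = δ) {X : C}
    (u : X ⟶ 𝟙_ C) (n : ℕ) : pm (𝟙 X) ζ n ≫ starN δ u n = starN δ u n := by
  induction n with
  | zero => simp [starN]
  | succ n ih =>
    have h1 : starN δ u (n + 1) = Y116.MT.star δ (starN δ u n) := rfl
    rw [h1, pm_succ, tensorHom_def', Category.assoc, ← star_comp, ih]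
    simp only [Y116.MT.star]
    rw [← MonoidalCategory.whiskerLeft_comp_assoc, hζ]

variable {D : Type u'} [Category.{v'} D] [Preadditive D] [HasZeroObject D] [HasShift D ℤ]
  [∀ n : ℤ, (shiftFunctor D n).Additive] [Pretriangulated D] [MonoidalCategory D]
  [SymmetricCategory D] [MonoidalPreadditive D] {E : Type w} [Field E] [CharZero E] [Linear E D]
  (F : C ⥤ D) [F.Braided] [F.Additive] [F.CommShift ℤ] [F.IsTriangulated]

lemma isIso_zsmul_id (X : D) (n : ℤ) (hn : n ≠ 0) (E : Type w) [Field E] [CharZero E]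
    [Linear E D] : IsIso (n • 𝟙 X) := by
  have h0 : (n : E) ≠ 0 := by exact_mod_cast hn
  refine ⟨(n : E)⁻¹ • 𝟙 X, ?_, ?_⟩
  · rw [← Int.cast_smul_eq_zsmul E, Linear.smul_comp, Linear.comp_smul, smul_smul,
      mul_inv_cancel₀ h0, one_smul, Category.comp_id]
  · rw [← Int.cast_smul_eq_zsmul E, Linear.smul_comp, Linear.comp_smul, smul_smul,
      inv_mul_cancel₀ h0, one_smul, Category.comp_id]

/-- The realisation of a distinguished triangle whose first map has a split realisation. -/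
lemma cone_retract {X Y Z : C} {f : X ⟶ Y} {g : Y ⟶ Z} {h : Z ⟶ X⟦(1 : ℤ)⟧}
    (hT : Triangle.mk f g h ∈ distTriang C) (r : F.obj Y ⟶ F.obj X) (hr : F.map f ≫ r = 𝟙 _) :
    ∃ l : F.obj Z ⟶ F.obj Y, l ≫ F.map g = 𝟙 _ := by
  have h1 := F.map_distinguished _ hT
  have h2 : (F.map h ≫ (F.commShiftIso (1 : ℤ)).hom.app X) ≫ (F.map f)⟦(1 : ℤ)⟧' = 0 :=
    comp_distTriang_mor_zero₃₁ _ h1
  have h3 : F.map h ≫ (F.commShiftIso (1 : ℤ)).hom.app X = 0 := by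
    calc _ = (F.map h ≫ (F.commShiftIso (1 : ℤ)).hom.app X) ≫
        (F.map f)⟦(1 : ℤ)⟧' ≫ r⟦(1 : ℤ)⟧' := by
          rw [← Functor.map_comp, hr, CategoryTheory.Functor.map_id]
          exact (Category.comp_id _).symm
      _ = 0 := by rw [← Category.assoc, h2, zero_comp]
  obtain ⟨l, hl⟩ := Triangle.coyoneda_exact₃ _ h1 (𝟙 _) (by
    change 𝟙 _ ≫ (F.map h ≫ (F.commShiftIso (1 : ℤ)).hom.app X) = 0
    rw [h3, comp_zero])
  exact ⟨l, hl.symm⟩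

/-- The endomorphism `n! - alt ∘ ζ^{⊗ n}` of the `n`-th tensor power of `Z`, where `alt` is the sum
of all permutations with signs. -/
def kos {Z : C} (ζ : Z ⟶ Z) (n : ℕ) : pw (𝟙_ C) Z n ⟶ pw (𝟙_ C) Z n :=
  (n.factorial : ℤ) • 𝟙 _ - alt (𝟙_ C) Z n ≫ pm (𝟙 _) ζ n

lemma kos_starN {Z : C} (δ : Z ⟶ (𝟙_ C)⟦(1 : ℤ)⟧) (ζ : Z ⟶ Z) (hζ : ζ ≫ δ = δ) (n : ℕ) :
    kos ζ n ≫ starN δ (𝟙 (𝟙_ C)) n = 0 := by
  rw [kos, Preadditive.sub_comp, Category.assoc, pm_starN δ ζ hζ, alt_star,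
    Preadditive.zsmul_comp, Category.id_comp, sub_self]

section

variable {P Z : C} {z : 𝟙_ C ⟶ P} {q : P ⟶ Z} {δ : Z ⟶ (𝟙_ C)⟦(1 : ℤ)⟧}
  (hT : Triangle.mk z q δ ∈ distTriang C) (π : P ⟶ P) (ζ : Z ⟶ Z) (hζ : q ≫ ζ = π ≫ q)
  (hζ' : ζ ≫ δ = δ) (n : ℕ)
  (hn : alt (𝟙_ D) (F.obj P) n ≫ pm (𝟙 _) (F.map π) n = 0)

include hT hζ hn in
/-- If the class has non zero realisation, the realisation of `kos` is an isomorphism. -/
theorem map_kos_isIso (hD : IsVectorLike E D) (hz : F.map z ≠ 0) : IsIso (F.map (kos ζ n)) := by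
  have hεz : ε F ≫ F.map z ≠ 0 := by
    intro h
    apply hz
    rw [← cancel_epi (ε F), h, comp_zero]
  obtain ⟨r, hr⟩ := hD.split _ hεz
  obtain ⟨l, hl⟩ := cone_retract F hT (r ≫ ε F) (by
    rw [← cancel_epi (ε F), ← Category.assoc, ← Category.assoc, hr, Category.id_comp,
      Category.comp_id])
  have hζ : F.map ζ = l ≫ F.map π ≫ F.map q := by
    rw [← Functor.map_comp, ← hζ, Functor.map_comp, reassoc_of% hl]
  have h1 : alt (𝟙_ D) (F.obj Z) n ≫ pm (𝟙 _) (F.map ζ) n = 0 := by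
    have h2 : pm (𝟙 (𝟙_ D)) (F.map ζ) n = pm (𝟙 _) l n ≫ pm (𝟙 _) (F.map π) n ≫
        pm (𝟙 _) (F.map q) n := by
      rw [pm_comp, pm_comp, hζ]
      simp
    rw [h2, ← Category.assoc, alt_pm, Category.assoc, reassoc_of% hn, zero_comp, comp_zero]
  have h2 := map_alt_zero F ζ n h1
  have hn0 : (n.factorial : ℤ) ≠ 0 := by exact_mod_cast Nat.factorial_ne_zero n
  have h3 : F.map (kos ζ n) = (n.factorial : ℤ) • 𝟙 _ := by
    rw [kos, Functor.map_sub, h2, sub_zero, Functor.map_zsmul, CategoryTheory.Functor.map_id]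
  rw [h3]
  exact isIso_zsmul_id _ _ hn0 E

include hT hζ' in
/-- If `kos` is an isomorphism, the class is not numerically trivial. -/
theorem not_numTrivial_of_isIso [RightRigidCategory C] (h1 : 𝟙 (𝟙_ C) ≠ 0)
    (Pr : ObjectProperty C) (hPu : Pr (𝟙_ C)) (hPQ : ∀ X, Pr X → Pr (X ⊗ P))
    (hP0 : ∀ X, Pr X → ∀ (m : ℤ), 0 < m → ∀ f : X ⟶ (𝟙_ C)⟦m⟧, f = 0)
    (hv : IsIso (kos ζ n)) : ∃ r : P ⟶ 𝟙_ C, z ≫ r ≠ 0 := by
  by_contra hcon
  push Not at hcon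
  have h7 : starN δ (𝟙 (𝟙_ C)) n = 0 := by
    rw [← cancel_epi (kos ζ n), kos_starN δ ζ hζ', comp_zero]
  refine starN_ne_zero δ z q hT Pr hPQ (fun X hX m f => un_zero (hP0 X hX) m f) hPu hcon ?_ n h7
  intro h8
  exact h1 ((IsZero.iff_id_eq_zero _).1 h8)

/-- `f` has a left inverse after applying `F`. -/
lemma splitEpi_star {W Z : C} (δ : Z ⟶ (𝟙_ C)⟦(1 : ℤ)⟧) (hδ : IsSplitEpi (F.map δ)) {m : ℕ}
    (f : W ⟶ un C m) (hf : IsSplitEpi (F.map f)) : IsSplitEpi (F.map (Y116.MT.star δ f)) := by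
  have h1 : IsSplitEpi (F.map (W ◁ δ)) := by
    rw [Functor.Monoidal.map_whiskerLeft]
    have h0 : IsSplitEpi (F.obj W ◁ F.map δ) :=
      inferInstanceAs (IsSplitEpi ((tensorLeft (F.obj W)).map (F.map δ)))
    infer_instance
  have h2 : IsSplitEpi (F.map (((ρ_ W).hom ≫ f)⟦(1 : ℤ)⟧')) := by
    have h3 : IsSplitEpi (F.map ((ρ_ W).hom ≫ f)) := by
      rw [Functor.map_comp]
      infer_instance
    have h4 : F.map (((ρ_ W).hom ≫ f)⟦(1 : ℤ)⟧') =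
        (F.commShiftIso (1 : ℤ)).hom.app _ ≫ (F.map ((ρ_ W).hom ≫ f))⟦(1 : ℤ)⟧' ≫
          (F.commShiftIso (1 : ℤ)).inv.app _ := by
      have := (F.commShiftIso (1 : ℤ)).hom.naturality ((ρ_ W).hom ≫ f)
      dsimp at this
      rw [← reassoc_of% this]
      simp
    rw [h4]
    infer_instance
  rw [Y116.MT.star, Functor.map_comp, Functor.map_comp]
  infer_instance

lemma splitEpi_starN {Z : C} (δ : Z ⟶ (𝟙_ C)⟦(1 : ℤ)⟧) (hδ : IsSplitEpi (F.map δ)) (m : ℕ) :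
    IsSplitEpi (F.map (starN δ (𝟙 (𝟙_ C)) m)) := by
  induction m with
  | zero =>
    simp only [starN]
    infer_instance
  | succ m ih => exact splitEpi_star F δ hδ _ ih

lemma map_un_ne (h1 : 𝟙 (𝟙_ D) ≠ 0) (m : ℕ) : ¬ IsZero (F.obj (un C m)) := by
  induction m with
  | zero =>
    intro h
    apply h1
    have h9 : 𝟙 (𝟙_ D) = ε F ≫ F.map (𝟙 (𝟙_ C)) ≫ inv (ε F) := by simp
    rw [h9, CategoryTheory.Functor.map_id, (IsZero.iff_id_eq_zero _).1 h, zero_comp, comp_zero]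
  | succ m ih =>
    intro h
    apply ih
    have h2 : IsZero ((F.obj (un C m))⟦(1 : ℤ)⟧) :=
      h.of_iso ((F.commShiftIso (1 : ℤ)).app (un C m)).symm
    rw [IsZero.iff_id_eq_zero] at h2 ⊢
    apply (shiftFunctor D (1 : ℤ)).map_injective
    rw [CategoryTheory.Functor.map_id, h2, Functor.map_zero]

include hT hζ' in
/-- If the realisation of `kos` is an isomorphism, the class has non zero realisation. -/
theorem map_ne_zero_of_isIso (h1 : 𝟙 (𝟙_ D) ≠ 0) (hv : IsIso (F.map (kos ζ n))) :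
    F.map z ≠ 0 := by
  intro hz
  have hδ : IsSplitEpi (F.map δ) := by
    obtain ⟨t, ht⟩ : ∃ t : (F.obj (𝟙_ C))⟦(1 : ℤ)⟧ ⟶ F.obj Z,
        t ≫ F.map δ ≫ (F.commShiftIso (1 : ℤ)).hom.app (𝟙_ C) = 𝟙 _ :=
      split1 (F.map_distinguished _ hT) hz
    refine ⟨⟨⟨(F.commShiftIso (1 : ℤ)).hom.app (𝟙_ C) ≫ t, ?_⟩⟩⟩
    rw [← cancel_mono ((F.commShiftIso (1 : ℤ)).hom.app (𝟙_ C)), Category.assoc, Category.assoc,
      ht, Category.id_comp]
    exact Category.comp_id _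
  obtain ⟨⟨⟨s, hs⟩⟩⟩ := splitEpi_starN F δ hδ n
  have h3 : F.map (starN δ (𝟙 (𝟙_ C)) n) = 0 := by
    rw [← cancel_epi (F.map (kos ζ n)), ← Functor.map_comp, kos_starN δ ζ hζ', Functor.map_zero,
      comp_zero]
  apply map_un_ne F h1 n
  rw [IsZero.iff_id_eq_zero, ← hs, h3, comp_zero]

end

/-- A conservative realisation detects numerically trivial classes. -/
theorem num_trivial [RightRigidCategory C] (hD : IsVectorLike E D) [F.ReflectsIsomorphisms]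
    {Q : C} (z : 𝟙_ C ⟶ Q) (π : Q ⟶ Q) (hπ : z ≫ π = z) (n : ℕ)
    (hn : alt (𝟙_ D) (F.obj Q) n ≫ pm (𝟙 _) (F.map π) n = 0) (hz : F.map z ≠ 0)
    (Pr : ObjectProperty C) (hPu : Pr (𝟙_ C)) (hPQ : ∀ X, Pr X → Pr (X ⊗ Q))
    (hP0 : ∀ X, Pr X → ∀ (m : ℤ), 0 < m → ∀ f : X ⟶ (𝟙_ C)⟦m⟧, f = 0) :
    ∃ r : Q ⟶ 𝟙_ C, z ≫ r ≠ 0 := by
  obtain ⟨Z, q, δ, hT⟩ := distinguished_cocone_triangle z
  obtain ⟨ζ, hζ1', hζ2'⟩ : ∃ ζ : Z ⟶ Z, q ≫ ζ = π ≫ q ∧ ζ ≫ δ = δ := by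
    obtain ⟨ζ, hζ1, hζ2⟩ := complete_distinguished_triangle_morphism _ _ hT hT (𝟙 _) π
      (by simpa using hπ)
    refine ⟨ζ, hζ1, ?_⟩
    have h1 : δ ≫ (𝟙 (𝟙_ C))⟦(1 : ℤ)⟧' = ζ ≫ δ := hζ2
    rw [← h1, CategoryTheory.Functor.map_id, Category.comp_id]
  have h4 := map_kos_isIso (E := E) F hT π ζ hζ1' n hn hD hz
  have h1 : 𝟙 (𝟙_ C) ≠ 0 := by
    intro h8
    apply hD.unit_ne
    have h9 : 𝟙 (𝟙_ D) = ε F ≫ F.map (𝟙 (𝟙_ C)) ≫ inv (ε F) := by simp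
    rw [h9, h8, Functor.map_zero, zero_comp, comp_zero]
  exact not_numTrivial_of_isIso hT ζ hζ2' n h1 Pr hPu hPQ hP0 (isIso_of_reflects_iso _ F)

end

end Pool.Agent.U735.CV
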